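import Mathlib

namespace Pool.Agent.Results.MP_cd9307_al.FinitelyBased

/-- Terms of type `(+, ·)` over countably many variables. -/
inductive Tm : Type
  | var : ℕ → Tm
  | add : Tm → Tm → Tm
  | mul : Tm → Tm → Tm

/-- The value of a term under an assignment. -/
def Tm.eval {A : Type} [Add A] [Mul A] (ρ : ℕ → A) : Tm → A
  | .var n => ρ n
  | .add s t => s.eval ρ + t.eval ρ
  | .mul s t => s.eval ρ * t.eval ρ

/-- The identity `σ.1 ≈ σ.2` holds in `A`. -/
def Holds (A : Type) [Add A] [Mul A] (σ : Tm × Tm) : Prop :=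
  ∀ ρ : ℕ → A, σ.1.eval ρ = σ.2.eval ρ

/-- The variety generated by `S` is defined by a finite set of identities. -/
def FinBased (S : Type) [Add S] [Mul S] : Prop :=
  ∃ E : Set (Tm × Tm), E.Finite ∧ ∀ (A : Type) [Add A] [Mul A],
    (∀ σ ∈ E, Holds A σ) ↔ ∀ σ, Holds S σ → Holds A σ

/-- `S ∪ {∞}`, with `none` as `∞`. -/
def Inf (S : Type) : Type := Option S

instance (S : Type) [Add S] : Add (Inf S) := ⟨fun a b => Option.map₂ (· + ·) a b⟩
instance (S : Type) [Mul S] : Mul (Inf S) := ⟨fun a b => Option.map₂ (· * ·) a b⟩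

/-- The variable `n` occurs in the term. -/
def Tm.has (n : ℕ) : Tm → Prop
  | .var m => n = m
  | .add s t => s.has n ∨ t.has n
  | .mul s t => s.has n ∨ t.has n

/-- Substitution. -/
def Tm.subst (τ : ℕ → Tm) : Tm → Tm
  | .var n => τ n
  | .add s t => .add (s.subst τ) (t.subst τ)
  | .mul s t => .mul (s.subst τ) (t.subst τ)

open Tm

lemma exists_has (t : Tm) : ∃ n, t.has n := by
  induction t with
  | var n => exact ⟨n, rfl⟩
  | add s t hs _ => exact hs.imp fun _ h => Or.inl h
  | mul s t hs _ => exact hs.imp fun _ h => Or.inl h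

lemma has_subst (τ : ℕ → Tm) (t : Tm) (n : ℕ) :
    (t.subst τ).has n ↔ ∃ m, t.has m ∧ (τ m).has n := by
  induction t with
  | var m => simp [subst, has]
  | add s t hs ht => simp only [subst, has, hs, ht, or_and_right, exists_or]
  | mul s t hs ht => simp only [subst, has, hs, ht, or_and_right, exists_or]

section
variable {A : Type} [Add A] [Mul A]

lemma eval_subst (ρ : ℕ → A) (τ : ℕ → Tm) (t : Tm) :
    (t.subst τ).eval ρ = t.eval (fun n => (τ n).eval ρ) := by
  induction t with
  | var m => rfl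
  | add s t hs ht => simp only [subst, eval, hs, ht]
  | mul s t hs ht => simp only [subst, eval, hs, ht]

lemma eval_congr {ρ ρ' : ℕ → A} (t : Tm) (h : ∀ n, t.has n → ρ n = ρ' n) :
    t.eval ρ = t.eval ρ' := by
  induction t with
  | var m => exact h m rfl
  | add s t hs ht =>
    simp only [eval]
    rw [hs fun n hn => h n (Or.inl hn), ht fun n hn => h n (Or.inr hn)]
  | mul s t hs ht =>
    simp only [eval]
    rw [hs fun n hn => h n (Or.inl hn), ht fun n hn => h n (Or.inr hn)]

lemma eval_some (ρ : ℕ → A) (t : Tm) :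
    t.eval (A := Inf A) (fun n => some (ρ n)) = some (t.eval ρ) := by
  induction t with
  | var m => rfl
  | add s t hs ht => simp only [eval, hs, ht]; rfl
  | mul s t hs ht => simp only [eval, hs, ht]; rfl

lemma eval_none (ρ : ℕ → Inf A) (t : Tm) : t.eval ρ = none ↔ ∃ n, t.has n ∧ ρ n = none := by
  induction t with
  | var m => simp [eval, has]
  | add s t hs ht =>
    simp only [eval, has, or_and_right, exists_or, ← hs, ← ht]
    exact Option.map₂_eq_none_iff
  | mul s t hs ht =>
    simp only [eval, has, or_and_right, exists_or, ← hs, ← ht]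
    exact Option.map₂_eq_none_iff

lemma holds_inf {σ : Tm × Tm} (h1 : Holds A σ) (h2 : ∀ n, σ.1.has n ↔ σ.2.has n) :
    Holds (Inf A) σ := by
  classical
  intro ρ
  by_cases h : ∃ n, σ.1.has n ∧ ρ n = none
  · rw [(eval_none ρ _).2 h, (eval_none ρ _).2 (h.imp fun n hn => ⟨(h2 n).1 hn.1, hn.2⟩)]
  · push Not at h
    obtain ⟨n0, hn0⟩ := exists_has σ.1
    obtain ⟨a0, -⟩ := Option.ne_none_iff_exists'.1 (h n0 hn0)
    let ρ' : ℕ → A := fun n => Option.getD (ρ n) a0
    have e : ∀ n, σ.1.has n → ρ n = some (ρ' n) := by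
      intro n hn
      obtain ⟨a, ha⟩ := Option.ne_none_iff_exists'.1 (h n hn)
      simp only [ρ', ha]
      rfl
    rw [eval_congr σ.1 e, eval_congr σ.2 fun n hn => e n ((h2 n).2 hn), eval_some, eval_some, h1 ρ']

lemma of_holds_inf [Nonempty A] {σ : Tm × Tm} (h : Holds (Inf A) σ) :
    Holds A σ ∧ ∀ n, σ.1.has n ↔ σ.2.has n := by
  classical
  refine ⟨fun ρ => ?_, fun n => ?_⟩
  · have := h (fun n => some (ρ n))
    rw [eval_some, eval_some] at this
    exact Option.some_injective _ this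
  · obtain ⟨a⟩ := ‹Nonempty A›
    let ρ : ℕ → Inf A := fun m => if m = n then none else some a
    have e : ∀ t : Tm, t.eval ρ = none ↔ t.has n := by
      intro t
      rw [eval_none]
      constructor
      · rintro ⟨m, hm, h'⟩
        by_cases hmn : m = n
        · exact hmn ▸ hm
        · simp [ρ, hmn] at h'
      · intro h'
        exact ⟨n, h', by simp [ρ]⟩
    rw [← e, ← e, h ρ]

/-- The value `a · p(t) · b`. -/
def PP (p : Tm) (a t b : A) : A := a * p.eval (fun _ => t) * b

/-- The value `a · h(t, z) · b`. -/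
def HH (h : Tm) (a t b z : A) : A := a * h.eval (fun n => if n = 1 then z else t) * b

/-- What the finite basis guarantees about one identity of the basis of `S`. -/
def Good (p h : Tm) (A : Type) [Add A] [Mul A] (σ : Tm × Tm) : Prop :=
  Holds A σ ∨ ∀ ρ : ℕ → A, ∃ a t b r a' t' b' r' : A, σ.1.eval ρ = PP p a t b + r ∧
    σ.2.eval ρ = PP p a' t' b' + r' ∧ ∀ z, σ.1.eval ρ + HH h a t b (z + σ.1.eval ρ + σ.2.eval ρ)
      = σ.2.eval ρ + HH h a' t' b' (z + σ.1.eval ρ + σ.2.eval ρ)

/-- The marker laws. -/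
structure Laws (p h : Tm) (A : Type) [Add A] [Mul A] : Prop where
  d1 : ∀ a t b x y : A, PP p a t b + HH h a t b (x + y) = PP p a t b + HH h a t b x + HH h a t b y
  d2 : ∀ a t b x y : A, PP p a t b + HH h a t b (x * y) = PP p a t b + HH h a t b x + HH h a t b y
  d3 : ∀ a t b x : A, PP p a t b + HH h a t b x + HH h a t b x = PP p a t b + HH h a t b x
  d4 : ∀ a t b r : A, PP p a t b + r + HH h a t b (PP p a t b + r) = PP p a t b + r
  d5 : ∀ a t b a' t' b' z : A, PP p a' t' b' + HH h a t b z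
    = PP p a' t' b' + HH h a' t' b' z + HH h a t b z

/-- Term version of `PP`. -/
def PT (p a t b : Tm) : Tm := .mul (.mul a (p.subst fun _ => t)) b

/-- Term version of `HH`. -/
def HT (h a t b z : Tm) : Tm := .mul (.mul a (h.subst fun n => if n = 1 then z else t)) b

lemma eval_PT (ρ : ℕ → A) (p a t b : Tm) :
    (PT p a t b).eval ρ = PP p (a.eval ρ) (t.eval ρ) (b.eval ρ) := by
  simp only [PT, PP, eval, eval_subst]

lemma eval_HT (ρ : ℕ → A) (h a t b z : Tm) :
    (HT h a t b z).eval ρ = HH h (a.eval ρ) (t.eval ρ) (b.eval ρ) (z.eval ρ) := by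
  simp only [HT, HH, eval, eval_subst]
  congr 3
  funext n
  split_ifs <;> rfl

end

lemma has_PT (p a t b : Tm) (n : ℕ) : (PT p a t b).has n ↔ a.has n ∨ t.has n ∨ b.has n := by
  obtain ⟨m, hm⟩ := exists_has p
  simp only [PT, has, has_subst, or_assoc]
  exact or_congr Iff.rfl (or_congr ⟨fun ⟨_, _, h⟩ => h, fun h => ⟨m, hm, h⟩⟩ Iff.rfl)

lemma has_HT {h : Tm} (h1 : h.has 1) : ∃ c : Prop, ∀ (a t b z : Tm) (n : ℕ),
    (HT h a t b z).has n ↔ a.has n ∨ (c ∧ t.has n) ∨ b.has n ∨ z.has n := by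
  refine ⟨∃ m, h.has m ∧ m ≠ 1, fun a t b z n => ?_⟩
  simp only [HT, has, has_subst]
  constructor
  · rintro ((h' | ⟨m, hm, h'⟩) | h')
    · tauto
    · by_cases e : m = 1
      · rw [if_pos e] at h'; tauto
      · rw [if_neg e] at h'
        exact Or.inr (Or.inl ⟨⟨m, hm, e⟩, h'⟩)
    · tauto
  · rintro (h' | ⟨⟨m, hm, e⟩, h'⟩ | h' | h')
    · tauto
    · exact Or.inl (Or.inr ⟨m, hm, by rwa [if_neg e]⟩)
    · tauto
    · exact Or.inl (Or.inr ⟨1, h1, by rwa [if_pos rfl]⟩)

section Core

variable {A : Type} [AddCommSemigroup A] [Semigroup A] [LeftDistribClass A] [RightDistribClass A]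
  {p h : Tm}

omit [LeftDistribClass A] [RightDistribClass A] in
lemma abs_iff (L : Laws p h A) (a t b r x y w : A)
    (hw : PP p a t b + HH h a t b w = PP p a t b + HH h a t b x + HH h a t b y) :
    PP p a t b + r + HH h a t b w = PP p a t b + r ↔
      (PP p a t b + r + HH h a t b x = PP p a t b + r ∧
        PP p a t b + r + HH h a t b y = PP p a t b + r) := by
  have e : PP p a t b + r + HH h a t b w = PP p a t b + r + HH h a t b x + HH h a t b y := by
    rw [add_right_comm, hw]; ac_rfl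
  constructor
  · intro h0
    rw [e] at h0
    constructor
    · calc PP p a t b + r + HH h a t b x
          = PP p a t b + r + HH h a t b x + HH h a t b y + HH h a t b x := by rw [h0]
        _ = PP p a t b + HH h a t b x + HH h a t b x + r + HH h a t b y := by ac_rfl
        _ = PP p a t b + r + HH h a t b x + HH h a t b y := by rw [L.d3]; ac_rfl
        _ = _ := h0
    · calc PP p a t b + r + HH h a t b y
          = PP p a t b + r + HH h a t b x + HH h a t b y + HH h a t b y := by rw [h0]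
        _ = PP p a t b + HH h a t b y + HH h a t b y + r + HH h a t b x := by ac_rfl
        _ = PP p a t b + r + HH h a t b x + HH h a t b y := by rw [L.d3]; ac_rfl
        _ = _ := h0
  · rintro ⟨h1, h2⟩
    rw [e, h1, h2]

omit [LeftDistribClass A] [RightDistribClass A] in
lemma abs_eval (L : Laws p h A) (a t b r : A) (ρ : ℕ → A) (u : Tm) :
    PP p a t b + r + HH h a t b (u.eval ρ) = PP p a t b + r ↔
      ∀ n, u.has n → PP p a t b + r + HH h a t b (ρ n) = PP p a t b + r := by
  induction u with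
  | var m => simp [eval, has]
  | add s u hs hu =>
    rw [eval, abs_iff L a t b r _ _ _ (L.d1 _ _ _ _ _), hs, hu]
    simp only [has, or_imp, forall_and]
  | mul s u hs hu =>
    rw [eval, abs_iff L a t b r _ _ _ (L.d2 _ _ _ _ _), hs, hu]
    simp only [has, or_imp, forall_and]

/-- Elements absorbed by everything marked with `z`. -/
def BB (p h : Tm) (z : A) : Type :=
  {d : A // ∀ a t b, PP p a t b + HH h a t b z + HH h a t b d = PP p a t b + HH h a t b z}

/-- The relation identifying elements with equal marked versions. -/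
def Rel (p h : Tm) (z w w' : A) : Prop :=
  w = w' ∨ ∃ a t b r a' t' b' r', w = PP p a t b + r ∧ w' = PP p a' t' b' + r' ∧
    w + HH h a t b z = w' + HH h a' t' b' z

omit [LeftDistribClass A] [RightDistribClass A] in
lemma rel_symm {z w w' : A} (H : Rel p h z w w') : Rel p h z w' w := by
  rcases H with H | ⟨a, t, b, r, a', t', b', r', h1, h2, h3⟩
  · exact Or.inl H.symm
  · exact Or.inr ⟨a', t', b', r', a, t, b, r, h2, h1, h3.symm⟩

omit [LeftDistribClass A] [RightDistribClass A] in
lemma rel_trans (L : Laws p h A) {z w w' w'' : A} (H : Rel p h z w w') (H' : Rel p h z w' w'') :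
    Rel p h z w w'' := by
  rcases H with rfl | ⟨a, t, b, r, a', t', b', r', h1, h2, h3⟩
  · exact H'
  rcases H' with rfl | ⟨c, s, d, q, c', s', d', q', g1, g2, g3⟩
  · exact Or.inr ⟨a, t, b, r, a', t', b', r', h1, h2, h3⟩
  refine Or.inr ⟨a, t, b, r, c', s', d', q', h1, g2, ?_⟩
  rw [h3, ← g3]
  have e1 : w' + HH h a' t' b' z = w' + HH h c s d z + HH h a' t' b' z := by
    rw [g1, add_right_comm, L.d5]; ac_rfl
  have e2 : w' + HH h c s d z = w' + HH h a' t' b' z + HH h c s d z := by
    rw [h2, add_right_comm, L.d5]; ac_rfl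
  rw [e2, add_right_comm]
  exact e1

omit [LeftDistribClass A] [RightDistribClass A] in
lemma rel_add {z w w' : A} (H : Rel p h z w w') (d : A) : Rel p h z (w + d) (w' + d) := by
  rcases H with rfl | ⟨a, t, b, r, a', t', b', r', h1, h2, h3⟩
  · exact Or.inl rfl
  · refine Or.inr ⟨a, t, b, r + d, a', t', b', r' + d, by rw [h1, add_assoc],
      by rw [h2, add_assoc], ?_⟩
    rw [add_right_comm, h3, add_right_comm]

omit [LeftDistribClass A] in
lemma rel_mul_right {z w w' : A} (H : Rel p h z w w') (d : A) : Rel p h z (w * d) (w' * d) := by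
  rcases H with rfl | ⟨a, t, b, r, a', t', b', r', h1, h2, h3⟩
  · exact Or.inl rfl
  · refine Or.inr ⟨a, t, b * d, r * d, a', t', b' * d, r' * d, ?_, ?_, ?_⟩
    · rw [h1, add_mul]; simp only [PP, mul_assoc]
    · rw [h2, add_mul]; simp only [PP, mul_assoc]
    · have := congrArg (· * d) h3
      simpa only [HH, add_mul, mul_assoc] using this

omit [RightDistribClass A] in
lemma rel_mul_left {z w w' : A} (H : Rel p h z w w') (d : A) : Rel p h z (d * w) (d * w') := by
  rcases H with rfl | ⟨a, t, b, r, a', t', b', r', h1, h2, h3⟩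
  · exact Or.inl rfl
  · refine Or.inr ⟨d * a, t, b, d * r, d * a', t', b', d * r', ?_, ?_, ?_⟩
    · rw [h1, mul_add]; simp only [PP, mul_assoc]
    · rw [h2, mul_add]; simp only [PP, mul_assoc]
    · have := congrArg (d * ·) h3
      simpa only [HH, mul_add, mul_assoc] using this

lemma core (L : Laws p h A) (E : Set (Tm × Tm)) (hE : ∀ σ ∈ E, Good p h A σ) (u v : Tm)
    (huv : ∀ (B : Type) [Add B] [Mul B], (∀ σ ∈ E, Holds B σ) → Holds B (u, v))
    (hreg : ∀ n, u.has n ↔ v.has n) : Holds A (u, v) := by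
  classical
  intro ρ
  show u.eval ρ = v.eval ρ
  set z := u.eval ρ with hz
  letI : Add (BB p h z) := ⟨fun x y => ⟨x.1 + y.1, fun a t b =>
    (abs_iff L a t b _ _ _ _ (L.d1 _ _ _ _ _)).2 ⟨x.2 a t b, y.2 a t b⟩⟩⟩
  letI : Mul (BB p h z) := ⟨fun x y => ⟨x.1 * y.1, fun a t b =>
    (abs_iff L a t b _ _ _ _ (L.d2 _ _ _ _ _)).2 ⟨x.2 a t b, y.2 a t b⟩⟩⟩
  have hval : ∀ (τ : ℕ → BB p h z) (s : Tm), (s.eval τ).1 = s.eval (fun n => (τ n).1) := by
    intro τ s
    induction s with
    | var n => rfl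
    | add s t hs ht => rw [eval, eval, ← hs, ← ht]; rfl
    | mul s t hs ht => rw [eval, eval, ← hs, ← ht]; rfl
  let θ : Setoid (BB p h z) := ⟨fun x y => Rel p h z x.1 y.1,
    ⟨fun _ => Or.inl rfl, rel_symm, rel_trans L⟩⟩
  letI : Add (Quotient θ) := ⟨Quotient.map₂ (· + ·) (fun x x' hx y y' hy => by
    show Rel p h z (x.1 + y.1) (x'.1 + y'.1)
    refine rel_trans L (rel_add hx _) ?_
    rw [add_comm x'.1, add_comm x'.1]
    exact rel_add hy _)⟩
  letI : Mul (Quotient θ) := ⟨Quotient.map₂ (· * ·) (fun x x' hx y y' hy =>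
    rel_trans L (rel_mul_right hx _) (rel_mul_left hy _))⟩
  have hq : ∀ (τ : ℕ → BB p h z) (s : Tm),
      s.eval (fun n => Quotient.mk θ (τ n)) = Quotient.mk θ (s.eval τ) := by
    intro τ s
    induction s with
    | var n => rfl
    | add s t hs ht => rw [eval, eval, hs, ht]; rfl
    | mul s t hs ht => rw [eval, eval, hs, ht]; rfl
  have hQ : ∀ σ ∈ E, Holds (Quotient θ) σ := by
    intro σ hσ τ'
    have : ∀ n, ∃ x, Quotient.mk θ x = τ' n := fun n => Quotient.exists_rep _
    choose τ hτ using this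
    rw [← funext hτ, hq, hq]
    apply Quotient.sound
    show Rel p h z (σ.1.eval τ).1 (σ.2.eval τ).1
    rcases hE σ hσ with H | H
    · left
      rw [hval, hval, H]
    · right
      obtain ⟨a, t, b, r, a', t', b', r', h1, h2, h3⟩ := H (fun n => (τ n).1)
      rw [← hval] at h1 h2
      have h4 := h3 z
      rw [← hval, ← hval] at h4
      refine ⟨a, t, b, r, a', t', b', r', h1, h2, ?_⟩
      have key : ∀ (c s d q : A) (x y : BB p h z), PP p c s d + q + HH h c s d (z + x.1 + y.1)
          = PP p c s d + q + HH h c s d z := by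
        intro c s d q x y
        rw [add_right_comm, L.d1, L.d1, x.2, y.2, add_right_comm]
      calc (σ.1.eval τ).1 + HH h a t b z
          = (σ.1.eval τ).1 + HH h a t b (z + (σ.1.eval τ).1 + (σ.2.eval τ).1) := by
            have := key a t b r (σ.1.eval τ) (σ.2.eval τ)
            rw [← h1] at this
            exact this.symm
        _ = _ := h4
        _ = (σ.2.eval τ).1 + HH h a' t' b' z := by
            have := key a' t' b' r' (σ.1.eval τ) (σ.2.eval τ)
            rw [← h2] at this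
            exact this
  have hzB : ∀ a t b, PP p a t b + HH h a t b z + HH h a t b z = PP p a t b + HH h a t b z :=
    fun a t b => L.d3 a t b z
  let τ : ℕ → BB p h z := fun n => if hn : u.has n then
    ⟨ρ n, fun a t b => (abs_eval L a t b _ ρ u).1 (hzB a t b) n hn⟩ else ⟨z, hzB⟩
  have hτ : ∀ n, u.has n → (τ n).1 = ρ n := fun n hn => by simp only [τ, dif_pos hn]
  have h1 := huv (Quotient θ) hQ (fun n => Quotient.mk θ (τ n))
  rw [hq, hq] at h1
  have h2 : Rel p h z (u.eval τ).1 (v.eval τ).1 := Quotient.exact h1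
  rw [hval, hval, eval_congr u hτ, eval_congr v fun n hn => hτ n ((hreg n).2 hn)] at h2
  rcases h2 with H | ⟨a, t, b, r, a', t', b', r', g1, g2, g3⟩
  · exact H
  · have e1 : u.eval ρ + HH h a t b z = u.eval ρ := by
      rw [hz, g1]; exact L.d4 a t b r
    have e2 : v.eval ρ + HH h a' t' b' z = v.eval ρ := by
      have e3 := L.d4 a' t' b' r'
      rw [← g2, g2, ← g2] at e3
      rw [g2, hz, abs_eval L]
      intro n hn
      refine (abs_eval L a' t' b' r' ρ v).1 ?_ n ((hreg n).1 hn)
      rw [← g2]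
      exact e3
    rw [hz, ← e1, g3, e2]

lemma marker_ex (q : Tm) (y : ℕ) (hy : q.has y) : ∃ h : Tm, h.has 1 ∧ ∀ t z : A,
    q.eval (fun n => if n = y then t + z else t)
      = q.eval (fun _ => t) + h.eval (fun n => if n = 1 then z else t) := by
  have hc : ∀ (q : Tm) (t z : A), (q.subst fun _ => .var 0).eval (fun n => if n = 1 then z else t)
      = q.eval (fun _ => t) := fun q t z => by rw [eval_subst]; simp [eval]
  have hn : ∀ (q : Tm), ¬ q.has y → ∀ t z : A,
      q.eval (fun n => if n = y then t + z else t) = q.eval (fun _ => t) := fun q hq t z =>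
    eval_congr q fun n hn => if_neg fun (e : n = y) => hq (e ▸ hn)
  induction q with
  | var m =>
    obtain rfl : y = m := hy
    exact ⟨.var 1, rfl, fun t z => by simp [eval]⟩
  | add q1 q2 ih1 ih2 =>
    by_cases h1 : q1.has y <;> by_cases h2 : q2.has y
    · obtain ⟨g1, a1, b1⟩ := ih1 h1
      obtain ⟨g2, -, b2⟩ := ih2 h2
      exact ⟨.add g1 g2, Or.inl a1, fun t z => by simp only [eval, b1, b2]; ac_rfl⟩
    · obtain ⟨g1, a1, b1⟩ := ih1 h1
      exact ⟨g1, a1, fun t z => by simp only [eval, b1, hn q2 h2]; ac_rfl⟩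
    · obtain ⟨g2, a2, b2⟩ := ih2 h2
      exact ⟨g2, a2, fun t z => by simp only [eval, b2, hn q1 h1]; ac_rfl⟩
    · exact (hy.elim h1 h2).elim
  | mul q1 q2 ih1 ih2 =>
    by_cases h1 : q1.has y <;> by_cases h2 : q2.has y
    · obtain ⟨g1, a1, b1⟩ := ih1 h1
      obtain ⟨g2, -, b2⟩ := ih2 h2
      refine ⟨.add (.mul g1 g2) (.add (.mul g1 (q2.subst fun _ => .var 0))
        (.mul (q1.subst fun _ => .var 0) g2)), Or.inl (Or.inl a1), fun t z => ?_⟩
      simp only [eval, b1, b2, hc, add_mul, mul_add]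
      ac_rfl
    · obtain ⟨g1, a1, b1⟩ := ih1 h1
      exact ⟨.mul g1 (q2.subst fun _ => .var 0), Or.inl a1, fun t z => by
        simp only [eval, b1, hn q2 h2, hc, add_mul]⟩
    · obtain ⟨g2, a2, b2⟩ := ih2 h2
      exact ⟨.mul (q1.subst fun _ => .var 0) g2, Or.inr a2, fun t z => by
        simp only [eval, b2, hn q1 h1, hc, mul_add]⟩
    · exact (hy.elim h1 h2).elim

lemma site_aux (p q : Tm) (τ : ℕ → Tm) (y : ℕ) (a0 t b0 r0 : Tm) (hy : q.has y)
    (hτ : τ y = .add (PT p a0 t b0) r0) : ∃ a b r : Tm,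
      Holds A (q.subst τ, .add (PT p a t b) r) ∧
        ∀ n, (q.subst τ).has n ↔ (Tm.add (PT p a t b) r).has n := by
  induction q with
  | var m =>
    obtain rfl : y = m := hy
    exact ⟨a0, b0, r0, fun ρ => by rw [subst, hτ], fun n => by rw [subst, hτ]⟩
  | add q1 q2 ih1 ih2 =>
    rcases hy with h1 | h2
    · obtain ⟨a, b, r, e1, e2⟩ := ih1 h1
      refine ⟨a, b, .add r (q2.subst τ), fun ρ => ?_, fun n => ?_⟩
      · have := e1 ρ
        simp only [subst, eval] at this ⊢
        rw [this, add_assoc]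
      · simp only [subst, has, e2, or_assoc]
    · obtain ⟨a, b, r, e1, e2⟩ := ih2 h2
      refine ⟨a, b, .add r (q1.subst τ), fun ρ => ?_, fun n => ?_⟩
      · have := e1 ρ
        simp only [subst, eval] at this ⊢
        rw [this]; ac_rfl
      · simp only [subst, has, e2]; tauto
  | mul q1 q2 ih1 ih2 =>
    rcases hy with h1 | h2
    · obtain ⟨a, b, r, e1, e2⟩ := ih1 h1
      refine ⟨a, .mul b (q2.subst τ), .mul r (q2.subst τ), fun ρ => ?_, fun n => ?_⟩
      · have := e1 ρ
        simp only [subst, eval, eval_PT, PP] at this ⊢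
        rw [this, add_mul]; simp only [mul_assoc]
      · simp only [subst, has, e2, has_PT]; tauto
    · obtain ⟨a, b, r, e1, e2⟩ := ih2 h2
      refine ⟨.mul (q1.subst τ) a, b, .mul (q1.subst τ) r, fun ρ => ?_, fun n => ?_⟩
      · have := e1 ρ
        simp only [subst, eval, eval_PT, PP] at this ⊢
        rw [this, mul_add]; simp only [mul_assoc]
      · simp only [subst, has, e2, has_PT]; tauto

lemma site_ex (p s u : Tm) (H : Holds A (s, u)) (hirr : ¬ ∀ n, s.has n ↔ u.has n) :
    ∃ a t b r : Tm, Holds A (s, .add (PT p a t b) r) ∧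
      ∀ n, s.has n ↔ (Tm.add (PT p a t b) r).has n := by
  classical
  let E : ℕ → Tm := fun x => .add (PT p (.var x) (.var x) (.var x)) (.var x)
  have hE : ∀ x n, (E x).has n ↔ n = x := fun x n => by simp [E, has, has_PT]
  by_cases h1 : ∃ y, s.has y ∧ ¬ u.has y
  · obtain ⟨y, hs, hu⟩ := h1
    let τ : ℕ → Tm := fun n => if n = y then E n else .var n
    obtain ⟨a, b, r, e1, e2⟩ := site_aux (A := A) p s τ y (.var y) (.var y) (.var y) (.var y) hs
      (by simp [τ, E])
    refine ⟨a, .var y, b, r, fun ρ => ?_, fun n => ?_⟩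
    · rw [← e1 ρ, eval_subst]
      refine (H ρ).trans (Eq.trans ?_ (H _).symm)
      exact eval_congr u fun n hn => by
        have : n ≠ y := fun e => hu (e ▸ hn)
        simp [τ, this, eval]
    · rw [← e2, has_subst]
      have : ∀ m, (τ m).has n ↔ n = m := fun m => by
        by_cases e : m = y
        · simp only [τ, if_pos e, hE]
        · simp only [τ, if_neg e, has]
      simp [this]
  · push Not at h1 hirr
    obtain ⟨y, hy⟩ := hirr
    have hy' : ¬ s.has y ∧ u.has y := by
      rcases hy with h' | h'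
      · exact (h'.2 (h1 y h'.1)).elim
      · exact h'
    obtain ⟨x, hx⟩ := exists_has s
    let τ : ℕ → Tm := fun n => if s.has n then .var n else E x
    obtain ⟨a, b, r, e1, e2⟩ := site_aux (A := A) p u τ y (.var x) (.var x) (.var x) (.var x) hy'.2
      (by simp [τ, E, hy'.1])
    refine ⟨a, .var x, b, r, fun ρ => ?_, fun n => ?_⟩
    · rw [← e1 ρ, eval_subst]
      refine Eq.trans ?_ (H _)
      exact eval_congr s fun n hn => by simp [τ, hn, eval]
    · rw [← e2, has_subst]
      constructor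
      · intro hn
        exact ⟨n, h1 n hn, by simp [τ, hn, has]⟩
      · rintro ⟨m, -, hm⟩
        by_cases e : s.has m
        · simp only [τ, if_pos e, has] at hm
          exact hm ▸ e
        · simp only [τ, if_neg e, hE] at hm
          exact hm ▸ hx

lemma good_ex (h1 : h.has 1) (hm : ∀ a t b z : A, PP p a t b + HH h a t b z = PP p a t b)
    (σ : Tm × Tm) (H : Holds A σ) : ∃ G : Set (Tm × Tm), G.Finite ∧ (∀ τ ∈ G, Holds (Inf A) τ) ∧
      ∀ (B : Type) [Add B] [Mul B], (∀ τ ∈ G, Holds B τ) → Good p h B σ := by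
  obtain ⟨s, u⟩ := σ
  by_cases hreg : ∀ n, s.has n ↔ u.has n
  · refine ⟨{(s, u)}, Set.finite_singleton _, ?_, fun B _ _ hB => Or.inl (hB _ rfl)⟩
    rintro _ rfl
    exact holds_inf H hreg
  obtain ⟨a, t, b, r, e1, f1⟩ := site_ex p s u H hreg
  obtain ⟨a', t', b', r', e2, f2⟩ := site_ex p u s (fun ρ => (H ρ).symm)
    (fun h' => hreg fun n => (h' n).symm)
  let sh : Tm → Tm := Tm.subst fun n => .var (n + 1)
  let Z : Tm := .add (.add (.var 0) (sh s)) (sh u)
  have hsh : ∀ (B : Type) [Add B] [Mul B] (ρ : ℕ → B) (w : Tm),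
      (sh w).eval ρ = w.eval (fun n => ρ (n + 1)) := fun B _ _ ρ w => eval_subst _ _ _
  refine ⟨{(s, .add (PT p a t b) r), (u, .add (PT p a' t' b') r'),
    (.add (sh s) (HT h (sh a) (sh t) (sh b) Z), .add (sh u) (HT h (sh a') (sh t') (sh b') Z))},
    Set.toFinite _, ?_, fun B _ _ hB => Or.inr fun ρ => ?_⟩
  · rintro _ (rfl | rfl | rfl)
    · exact holds_inf e1 f1
    · exact holds_inf e2 f2
    · refine holds_inf (fun ρ => ?_) (fun n => ?_)
      · have g1 := e1 (fun n => ρ (n + 1))
        have g2 := e2 (fun n => ρ (n + 1))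
        have g3 := H (fun n => ρ (n + 1))
        simp only [eval, eval_PT] at g1 g2 g3
        simp only [eval, eval_HT, hsh]
        generalize eval ρ Z = z
        rw [g1, g2, add_right_comm, hm, add_right_comm, hm, ← g1, ← g2, g3]
      · obtain ⟨c, hc⟩ := has_HT h1
        have k1 : ∀ w w' : Tm, (∀ m, w.has m → w'.has m) → (sh w).has n → (sh w').has n := by
          intro w w' hw
          simp only [sh, has_subst]
          exact fun ⟨m, hm1, hm2⟩ => ⟨m, hw m hm1, hm2⟩
        have a1 := k1 a s fun m hm' => (f1 m).2 (Or.inl ((has_PT _ _ _ _ _).2 (by tauto)))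
        have a2 := k1 t s fun m hm' => (f1 m).2 (Or.inl ((has_PT _ _ _ _ _).2 (by tauto)))
        have a3 := k1 b s fun m hm' => (f1 m).2 (Or.inl ((has_PT _ _ _ _ _).2 (by tauto)))
        have b1 := k1 a' u fun m hm' => (f2 m).2 (Or.inl ((has_PT _ _ _ _ _).2 (by tauto)))
        have b2 := k1 t' u fun m hm' => (f2 m).2 (Or.inl ((has_PT _ _ _ _ _).2 (by tauto)))
        have b3 := k1 b' u fun m hm' => (f2 m).2 (Or.inl ((has_PT _ _ _ _ _).2 (by tauto)))
        simp only [has, hc, Z]
        generalize has n (sh s) = s1 at *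
        generalize has n (sh u) = u1 at *
        constructor
        · rintro (g | g | ⟨-, g⟩ | g | g)
          · exact Or.inr (Or.inr (Or.inr (Or.inr (Or.inl (Or.inr g)))))
          · exact Or.inr (Or.inr (Or.inr (Or.inr (Or.inl (Or.inr (a1 g))))))
          · exact Or.inr (Or.inr (Or.inr (Or.inr (Or.inl (Or.inr (a2 g))))))
          · exact Or.inr (Or.inr (Or.inr (Or.inr (Or.inl (Or.inr (a3 g))))))
          · exact Or.inr (Or.inr (Or.inr (Or.inr g)))
        · rintro (g | g | ⟨-, g⟩ | g | g)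
          · exact Or.inr (Or.inr (Or.inr (Or.inr (Or.inr g))))
          · exact Or.inr (Or.inr (Or.inr (Or.inr (Or.inr (b1 g)))))
          · exact Or.inr (Or.inr (Or.inr (Or.inr (Or.inr (b2 g)))))
          · exact Or.inr (Or.inr (Or.inr (Or.inr (Or.inr (b3 g)))))
          · exact Or.inr (Or.inr (Or.inr (Or.inr g)))
  · have g1 := hB _ (Or.inl rfl) ρ
    have g2 := hB _ (Or.inr (Or.inl rfl)) ρ
    simp only [eval, eval_PT] at g1 g2
    refine ⟨_, _, _, _, _, _, _, _, g1, g2, fun z => ?_⟩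
    have g3 := hB _ (Or.inr (Or.inr rfl)) (fun n => Nat.casesOn n z ρ)
    simp only [eval, eval_HT, hsh, Z] at g3
    exact g3

/-- The identities expressing the marker laws. -/
def lawIds (p h : Tm) : Set (Tm × Tm) :=
  let P := PT p (.var 0) (.var 1) (.var 2)
  let H := HT h (.var 0) (.var 1) (.var 2)
  {(.add P (H (.add (.var 3) (.var 4))), .add (.add P (H (.var 3))) (H (.var 4))),
   (.add P (H (.mul (.var 3) (.var 4))), .add (.add P (H (.var 3))) (H (.var 4))),
   (.add (.add P (H (.var 3))) (H (.var 3)), .add P (H (.var 3))),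
   (.add (.add P (.var 3)) (H (.add P (.var 3))), .add P (.var 3)),
   (.add (PT p (.var 3) (.var 4) (.var 5)) (H (.var 6)),
    .add (.add (PT p (.var 3) (.var 4) (.var 5)) (HT h (.var 3) (.var 4) (.var 5) (.var 6)))
      (H (.var 6)))}

omit [LeftDistribClass A] [RightDistribClass A] in
lemma lawIds_valid (h1 : h.has 1) (hm : ∀ a t b z : A, PP p a t b + HH h a t b z = PP p a t b) :
    ∀ τ ∈ lawIds p h, Holds (Inf A) τ := by
  obtain ⟨c, hc⟩ := has_HT h1
  rintro _ (rfl | rfl | rfl | rfl | rfl) <;> refine holds_inf (fun ρ => ?_) (fun n => ?_)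
  all_goals first
    | (simp only [has, hc, has_PT]; tauto)
    | (simp only [eval, eval_PT, eval_HT, hm]; done)
    | (simp only [eval, eval_PT, eval_HT]; rw [add_right_comm, hm])

end Core

lemma laws_of {p h : Tm} {B : Type} [Add B] [Mul B] (H : ∀ τ ∈ lawIds p h, Holds B τ) :
    Laws p h B := by
  constructor
  · intro a t b x y
    simpa [eval, eval_PT, eval_HT] using H _ (Or.inl rfl) (fun n => [a, t, b, x, y].getD n a)
  · intro a t b x y
    simpa [eval, eval_PT, eval_HT] using
      H _ (Or.inr (Or.inl rfl)) (fun n => [a, t, b, x, y].getD n a)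
  · intro a t b x
    simpa [eval, eval_PT, eval_HT] using
      H _ (Or.inr (Or.inr (Or.inl rfl))) (fun n => [a, t, b, x].getD n a)
  · intro a t b x
    simpa [eval, eval_PT, eval_HT] using
      H _ (Or.inr (Or.inr (Or.inr (Or.inl rfl)))) (fun n => [a, t, b, x].getD n a)
  · intro a t b a' t' b' z
    simpa [eval, eval_PT, eval_HT] using
      H _ (Or.inr (Or.inr (Or.inr (Or.inr rfl)))) (fun n => [a, t, b, a', t', b', z].getD n a)

/-- The semiring axioms. -/
def axIds : Set (Tm × Tm) :=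
  {(.add (.add (.var 0) (.var 1)) (.var 2), .add (.var 0) (.add (.var 1) (.var 2))),
   (.add (.var 0) (.var 1), .add (.var 1) (.var 0)),
   (.mul (.mul (.var 0) (.var 1)) (.var 2), .mul (.var 0) (.mul (.var 1) (.var 2))),
   (.mul (.var 0) (.add (.var 1) (.var 2)), .add (.mul (.var 0) (.var 1)) (.mul (.var 0) (.var 2))),
   (.mul (.add (.var 0) (.var 1)) (.var 2), .add (.mul (.var 0) (.var 2)) (.mul (.var 1) (.var 2)))}

theorem result (S : Type) [AddCommSemigroup S] [Semigroup S] [LeftDistribClass S]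
    [RightDistribClass S] (hS : FinBased S) : FinBased (Inf S) := by
  classical
  rcases isEmpty_or_nonempty S with hemp | hne
  · refine ⟨{(.var 0, .var 1)}, Set.finite_singleton _, fun A _ _ => ⟨fun H σ _ ρ => ?_, ?_⟩⟩
    · exact H _ rfl (fun n => if n = 0 then σ.1.eval ρ else σ.2.eval ρ)
    · rintro H _ rfl
      refine H _ fun ρ => ?_
      have : ∀ x : Inf S, x = none := fun x => by
        rcases x with _ | x
        · rfl
        · exact hemp.elim x
      rw [this (eval ρ _), this (eval ρ _)]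
  obtain ⟨E, hEf, hE⟩ := hS
  have hES : ∀ σ ∈ E, Holds S σ := (hE S).2 fun _ h => h
  by_cases hreg : ∀ σ : Tm × Tm, Holds S σ → ∀ n, σ.1.has n → σ.2.has n
  · refine ⟨E, hEf, fun A _ _ => (hE A).trans ⟨fun H σ hσ => H σ (of_holds_inf hσ).1,
      fun H σ hσ => H σ (holds_inf hσ fun n => ⟨hreg σ hσ n, hreg σ.swap (fun ρ => (hσ ρ).symm) n⟩)⟩⟩
  push Not at hreg
  obtain ⟨⟨q, p⟩, hqp, y, hq, hp⟩ := hreg
  obtain ⟨h, h1, hh⟩ := marker_ex (A := S) q y hq
  have hm : ∀ a t b z : S, PP p a t b + HH h a t b z = PP p a t b := by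
    intro a t b z
    have e1 : q.eval (fun _ => t) = p.eval (fun _ => t) := hqp _
    have e2 : q.eval (fun n => if n = y then t + z else t) = p.eval (fun _ => t) :=
      (hqp _).trans (eval_congr p fun n hn => if_neg fun (e : n = y) => hp (e ▸ hn))
    rw [PP, HH, ← add_mul, ← mul_add, ← e1, ← hh, e2, e1]
  choose G hGf hGv hG using fun σ : E => good_ex h1 hm σ.1 (hES σ.1 σ.2)
  haveI : Finite E := hEf
  have hax : ∀ τ ∈ axIds, Holds (Inf S) τ := by
    rintro _ (rfl | rfl | rfl | rfl | rfl) <;> refine holds_inf (fun ρ => ?_) (fun n => ?_)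
    all_goals first
      | (simp only [has]; tauto)
      | (simp only [eval, add_assoc, mul_assoc, mul_add, add_mul]; done)
      | (simp only [eval]; rw [add_comm])
  refine ⟨axIds ∪ lawIds p h ∪ ⋃ σ, G σ, ?_, fun A _ _ => ⟨fun H σ hσ => ?_, fun H τ hτ => H τ ?_⟩⟩
  · refine (Set.Finite.union ?_ ?_).union (Set.finite_iUnion hGf)
    · unfold axIds
      exact Set.toFinite _
    · unfold lawIds
      exact Set.toFinite _
  · have hA : ∀ τ ∈ axIds, Holds A τ := fun τ hτ => H τ (Or.inl (Or.inl hτ))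
    letI : AddCommSemigroup A :=
      { add_assoc := fun a b c => hA _ (Or.inl rfl) (fun n => [a, b, c].getD n a)
        add_comm := fun a b => hA _ (Or.inr (Or.inl rfl)) (fun n => [a, b].getD n a) }
    letI : Semigroup A :=
      { mul_assoc := fun a b c => hA _ (Or.inr (Or.inr (Or.inl rfl))) (fun n => [a, b, c].getD n a) }
    haveI : LeftDistribClass A :=
      ⟨fun a b c => hA _ (Or.inr (Or.inr (Or.inr (Or.inl rfl)))) (fun n => [a, b, c].getD n a)⟩
    haveI : RightDistribClass A :=
      ⟨fun a b c => hA _ (Or.inr (Or.inr (Or.inr (Or.inr rfl)))) (fun n => [a, b, c].getD n a)⟩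
    obtain ⟨g1, g2⟩ := of_holds_inf hσ
    exact core (laws_of fun τ hτ => H τ (Or.inl (Or.inr hτ))) E
      (fun τ hτ => hG ⟨τ, hτ⟩ A fun w hw => H w (Or.inr (Set.mem_iUnion.2 ⟨_, hw⟩))) σ.1 σ.2
      (fun B _ _ hB => (hE B).1 hB σ g1) g2
  · rcases hτ with (hτ | hτ) | hτ
    · exact hax τ hτ
    · exact lawIds_valid h1 hm τ hτ
    · obtain ⟨σ, hσ⟩ := Set.mem_iUnion.1 hτ
      exact hGv σ τ hσ

end Pool.Agent.Results.MP_cd9307_al.FinitelyBased
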